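import Pool.Agent.Helper95_AT10.TV

/-!
# Squad AT10, row TVS: the values `tv` are well defined
-/

set_option autoImplicit false

open scoped BigOperators

noncomputable section

namespace Pool.Agent.PP.T10.H45

open Pool.Agent.Helper51_AWC Pool.Agent.Helper79_WRA Pool.Agent.PP Pool.Agent.PP.KF
open Pool.Agent.PP.K9 Pool.Agent.PP.K9.H97 Pool.Agent.PP.H75 Pool.Agent.PP.T3 Pool.Agent.PP.T2
open Pool.Agent.PP.T5 Pool.Agent.PP.TB
open Pool.Agent.PP.T8 (rs pw fv rd Ip Rv)

attribute [local instance] Ideal.Quotient.field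

theorem tvs (lft : T8.LftStmt) (smi : T8.SmiStmt) : TvsStmt := by
  intro ℓ _ M _ hM G _ _ u hu
  have hF : GoodF ℓ (FF M) := H50.fld ℓ Fact.out M hM
  have hup := H95.pgroup_zpowers hu
  have h1 : ∀ j : G → FF M, mulF j j = j → (∀ g, g ∉ Cu u → j g = 0) →
      ∃ i, Il M u j i ∧ ∀ g, g ∉ Cu u → i g = 0 := by
    intro j hj hs
    obtain ⟨i, hI, his, hrd⟩ := lft M G ⊥ (Cu u) j hj hs (by
      intro v hv g
      rw [Subgroup.mem_bot.1 hv, one_mul, inv_one, mul_one])
    exact ⟨i, ⟨hI.rm, hI.id, H95.iv_of_supp his, by rw [hrd, H95.rs_supp hs]⟩, his⟩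
  have h2 : ∀ (j : G → FF M) (i : G → ℂ), Il M u j i →
      mulF j j = j ∧ ∀ g, g ∉ Cu u → j g = 0 := by
    intro j i hI
    constructor
    · have hiv : ∀ x, rd M i (u * x * u⁻¹) = rd M i x := by
        intro x
        unfold rd
        rw [hI.iv]
      rw [← hI.rd, ← T8.H28.rs_mulF hF hup hiv hiv, ← T8.H28.rd_mulF hI.rm hI.rm, hI.id]
    · intro g hg
      rw [← hI.rd, H95.rs_out hg]
  have h3 : ∀ (j : G → FF M) (i i' : G → ℂ), Il M u j i → Il M u j i' →
      ∀ th : G → ℂ, (∀ x y, th (y * x * y⁻¹) = th x) → fv i u th = fv i' u th := by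
    intro j i i' hI hI' th hth
    obtain ⟨j', hJ, hJs⟩ := h1 j (h2 j i hI).1 (h2 j i hI).2
    have key : ∀ i : G → ℂ, Il M u j i → fv i u th = fv j' u th := by
      intro i hI
      refine smi ℓ M hM G u hu i j' hI.rm hI.id hI.iv hJ.rm hJ.id hJs (fun g hg => ?_) th hth
      have e1 := congrFun hI.rd g
      have e2 := congrFun hJ.rd g
      rw [H95.rs_in hg] at e1 e2
      exact e2.trans e1.symm
    rw [key i hI, key i' hI']
  have h4 : ∀ (j : G → FF M) (i : G → ℂ), Il M u j i → ∀ th : G → ℂ,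
      (∀ x y, th (y * x * y⁻¹) = th x) → tv M u j th = fv i u th := by
    intro j i hI th hth
    have hex : ∃ i, Il M u j i := ⟨i, hI⟩
    unfold tv
    rw [dif_pos hex]
    exact h3 j _ _ hex.choose_spec hI th hth
  refine ⟨h1, h4, ?_⟩
  intro th hth
  have h0 : Il M u (0 : G → FF M) (0 : G → ℂ) := by
    refine ⟨fun g => (RM M).zero_mem, mulF_zero_left _, fun x => rfl, ?_⟩
    rw [H95.rd_zero, H95.rs_zero]
  rw [h4 0 0 h0 th hth]
  unfold fv
  simp

end Pool.Agent.PP.T10.H45
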